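import Mathlib
import Pool.Agent.VM5.Stmts
import Pool.Agent.Helper98_VM5.Ta

set_option autoImplicit false

namespace Pool.Agent.VM5.H25

open Pool.Agent.VM5
open Pool.Agent.VM (Nr)

theorem ypt : YptStmt := by
  intro N D K U G t b S hpar p hp p' hp' hc
  obtain ⟨h1, h2, h3, h4, h5, h6, h7, h8, h9, h10, h11, h12, hS⟩ := hpar
  have hc1 := hc 1
  have hc2 := hc 2
  simp only [co3] at hc1 hc2
  simp at hc1 hc2
  obtain ⟨z2, hz2⟩ := hc1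
  obtain ⟨z3, hz3⟩ := hc2
  refine ⟨2 * (p.2.2.1 : ℤ) * z2 - 3 * Z3 p * z3, ?_⟩
  rw [← Pool.Agent.VM5.H98.y3 p p']
  have hK : (0 : ℝ) < (K : ℝ) := by
    have : 0 < K := by omega
    exact_mod_cast this
  have hp2 := hp
  simp only [P3, Finset.mem_product, Finset.mem_Icc] at hp2
  obtain ⟨⟨ha1, ha2⟩, ⟨hb1, hb2⟩, hd, hr1, hr2⟩ := hp2
  obtain ⟨hd1, hd2, -⟩ := hS _ hd
  have hdR : ((p.2.2.1 : ℕ) : ℝ) ≤ 2 * (D : ℝ) := by exact_mod_cast hd2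
  have hZ : |(Z3 p : ℝ)| ≤ 20 * (D : ℝ) * (K : ℝ) := by
    have hZi : |Z3 p| ≤ 4 * (N : ℤ) := by
      unfold Z3
      rw [abs_le]
      constructor <;> omega
    have h5' : (4 * (N : ℤ) : ℤ) ≤ 20 * (D : ℤ) * (K : ℤ) := by
      have : (N : ℤ) ≤ 5 * D * K := by exact_mod_cast h2
      nlinarith
    exact_mod_cast hZi.trans h5'
  have e1 : (t * ((2 * ((p.2.2.1 : ℕ) : ℤ) * (n2 p - n2 p') - 3 * Z3 p * (n3 p - n3 p') : ℤ) : ℝ)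
      - ((2 * ((p.2.2.1 : ℕ) : ℤ) * z2 - 3 * Z3 p * z3 : ℤ) : ℝ)) =
      2 * ((p.2.2.1 : ℕ) : ℝ) * (t * (n2 p : ℝ) - t * (n2 p' : ℝ) - z2) -
      3 * (Z3 p : ℝ) * (t * (n3 p : ℝ) - t * (n3 p' : ℝ) - z3) := by
    push_cast
    ring
  rw [e1]
  have b1 : |2 * ((p.2.2.1 : ℕ) : ℝ) * (t * (n2 p : ℝ) - t * (n2 p' : ℝ) - z2)| ≤
      4 * (D : ℝ) * (1 / (K : ℝ) ^ 2) := by
    rw [abs_mul]
    apply mul_le_mul
    · rw [abs_of_nonneg (by positivity)]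
      linarith
    · simpa using hz2
    · exact abs_nonneg _
    · positivity
  have b2 : |3 * (Z3 p : ℝ) * (t * (n3 p : ℝ) - t * (n3 p' : ℝ) - z3)| ≤
      60 * (D : ℝ) * (K : ℝ) * (1 / (K : ℝ) ^ 3) := by
    rw [abs_mul]
    apply mul_le_mul
    · rw [abs_mul, abs_of_nonneg (by norm_num : (0 : ℝ) ≤ 3)]
      linarith
    · simpa using hz3
    · exact abs_nonneg _
    · positivity
  have e2 : 4 * (D : ℝ) * (1 / (K : ℝ) ^ 2) + 60 * (D : ℝ) * (K : ℝ) * (1 / (K : ℝ) ^ 3) =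
      64 * (D : ℝ) / (K : ℝ) ^ 2 := by
    field_simp
    ring
  calc _ ≤ _ := abs_sub _ _
    _ ≤ _ := add_le_add b1 b2
    _ = _ := e2

end Pool.Agent.VM5.H25
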